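import Mathlib

/-!
Combinatorial core for MP_293d80_gt.

Two families of promises, one for `X` and one for `Y`, are kept dual: for every set `A` of
naturals, either `A` is good for the first family or the complement of `A` is good for the second.
-/

set_option autoImplicit false

namespace Pool.Agent.Lib.MP_293d80_gt

open Set Cardinal

/-- The Cantor space, whose points are also read as sets of naturals. -/
abbrev C := ℕ → Bool

/-- Codes of sequences of open subsets of the Cantor space. -/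
abbrev K := Set (ℕ × Finset ℕ × ℕ)

/-- `x` agrees with the finite set `u` below `m`. -/
def Agree (u : Finset ℕ) (m : ℕ) (x : C) : Prop := ∀ i < m, (x i = true ↔ i ∈ u)

/-- From `h` on, `x` is a subset of `A`. -/
def Below (h : ℕ) (x A : C) : Prop := ∀ i, h ≤ i → x i = true → A i = true

/-- The `n`-th open set of the sequence with code `k`. -/
def W (k : K) (n : ℕ) : Set C := {x | ∃ u m, (n, u, m) ∈ k ∧ Agree u m x}

/-- Indices of the open sets that contain `x`. -/
def ev (k : K) (x : C) : Set ℕ := {n | x ∈ W k n}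

/-- Indices of the open sets that contain some point which agrees with `z` below `h` and is a
subset of `A` from `h` on. -/
def S (k : K) (z : Finset ℕ) (h : ℕ) (A : C) : Set ℕ :=
  {n | ∃ x, x ∈ W k n ∧ Agree z h x ∧ Below h x A}

/-- The set `T` is unbounded. -/
def Unb (T : Set ℕ) : Prop := ∀ k, ∃ n, k ≤ n ∧ n ∈ T

/-- `D` splits `T`. -/
def Spl (D : C) (T : Set ℕ) : Prop := ∀ b k, ∃ n, k ≤ n ∧ n ∈ T ∧ D n = b

/-- `A` is good for the promises in `P`. -/
def Good (P : Set (K × C)) (A : C) : Prop :=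
  (∀ k, ∃ n, k ≤ n ∧ A n = true) ∧ ∀ p ∈ P, ∀ z h, Spl p.2 (S p.1 z h A)

/-- complement -/
def neg (A : C) : C := fun i => !A i

theorem neg_neg' (A : C) : neg (neg A) = A := by
  funext i; simp [neg]

/-- `cov(M) = 𝔠` for the Cantor space. -/
def CovM : Prop :=
  ∀ F : Set (Set (ℕ → Bool)), #F < 𝔠 → (∀ s ∈ F, IsNowhereDense s) → ⋃₀ F ≠ Set.univ

/-! ### topology of the Cantor space -/

theorem open_cyl {U : Set C} (hU : IsOpen U) {x : C} (hx : x ∈ U) :
    ∃ m, ∀ y : C, (∀ i < m, y i = x i) → y ∈ U := by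
  obtain ⟨v, ⟨y, n, rfl⟩, hxv, hvU⟩ :=
    (PiNat.isTopologicalBasis_cylinders (fun _ : ℕ => Bool)).exists_subset_of_mem_open hx hU
  refine ⟨n, fun w hw => hvU ?_⟩
  intro i hi
  rw [hw i hi]
  exact hxv i hi

theorem isOpen_of_cyl {U : Set C}
    (h : ∀ x ∈ U, ∃ m, ∀ y : C, (∀ i < m, y i = x i) → y ∈ U) : IsOpen U := by
  rw [isOpen_iff_forall_mem_open]
  intro x hx
  obtain ⟨m, hm⟩ := h x hx
  refine ⟨PiNat.cylinder (E := fun _ : ℕ => Bool) x m, fun y hy => hm y hy,
    PiNat.isOpen_cylinder _ x m, PiNat.self_mem_cylinder x m⟩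

theorem dense_of_cyl {G : Set C} (h : ∀ (x : C) (m : ℕ), ∃ y ∈ G, ∀ i < m, y i = x i) :
    Dense G := by
  rw [dense_iff_inter_open]
  rintro U hU ⟨x, hx⟩
  obtain ⟨m, hm⟩ := open_cyl hU hx
  obtain ⟨y, hyG, hy⟩ := h x m
  exact ⟨y, hm y hy, hyG⟩

theorem agree_congr {u : Finset ℕ} {m : ℕ} {x y : C} (h : Agree u m x)
    (hxy : ∀ i < m, y i = x i) : Agree u m y := by
  intro i hi
  rw [hxy i hi]
  exact h i hi

theorem W_cyl {k : K} {n : ℕ} {x : C} (hx : x ∈ W k n) :
    ∃ m, ∀ y : C, (∀ i < m, y i = x i) → y ∈ W k n := by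
  obtain ⟨u, m, hk, ha⟩ := hx
  exact ⟨m, fun y hy => ⟨u, m, hk, agree_congr ha hy⟩⟩

theorem W_open (k : K) (n : ℕ) : IsOpen (W k n) := isOpen_of_cyl fun _ hx => W_cyl hx

/-- If `n ∈ S k z h A`, this is decided by a finite part of `A`. -/
theorem S_cyl {k : K} {z : Finset ℕ} {h n : ℕ} {A : C} (hn : n ∈ S k z h A) :
    ∃ m, ∀ B : C, (∀ i < m, B i = A i) → n ∈ S k z h B := by
  obtain ⟨x, hxW, hxz, hxA⟩ := hn
  obtain ⟨m, hm⟩ := W_cyl hxW
  refine ⟨max m h, fun B hB => ⟨fun i => if i < max m h then x i else false, ?_, ?_, ?_⟩⟩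
  · apply hm
    intro i hi
    have : i < max m h := lt_of_lt_of_le hi (le_max_left _ _)
    simp [this]
  · apply agree_congr hxz
    intro i hi
    have : i < max m h := lt_of_lt_of_le hi (le_max_right _ _)
    simp [this]
  · intro i hi hxi
    have hxi' : (if i < max m h then x i else false) = true := hxi
    by_cases hlt : i < max m h
    · rw [if_pos hlt] at hxi'
      rw [hB i hlt]
      exact hxA i hi hxi'
    · rw [if_neg hlt] at hxi'
      exact absurd hxi' (by simp)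

theorem S_mono {k : K} {z : Finset ℕ} {h : ℕ} {A B : C} (hAB : ∀ i, A i = true → B i = true) :
    S k z h A ⊆ S k z h B := by
  rintro n ⟨x, hxW, hxz, hxA⟩
  exact ⟨x, hxW, hxz, fun i hi hxi => hAB i (hxA i hi hxi)⟩

theorem isOpen_S (k : K) (z : Finset ℕ) (h n : ℕ) : IsOpen {A : C | n ∈ S k z h A} :=
  isOpen_of_cyl fun _ hA => S_cyl hA

theorem isOpen_S_neg (k : K) (z : Finset ℕ) (h n : ℕ) :
    IsOpen {A : C | n ∈ S k z h (neg A)} := by
  apply isOpen_of_cyl
  intro A hA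
  obtain ⟨m, hm⟩ := S_cyl hA
  refine ⟨m, fun B hB => hm _ fun i hi => ?_⟩
  simp [neg, hB i hi]

/-! ### genericity -/

theorem generic (hcov : CovM) {ι : Type} (hι : #ι < 𝔠) (G : ι → Set C)
    (ho : ∀ i, IsOpen (G i)) (hd : ∀ i, Dense (G i)) : ∃ x, ∀ i, x ∈ G i := by
  have h := hcov (range fun i => (G i)ᶜ) (lt_of_le_of_lt mk_range_le hι) ?_
  · rw [Ne, Set.eq_univ_iff_forall, not_forall] at h
    obtain ⟨x, hx⟩ := h
    refine ⟨x, fun i => ?_⟩
    by_contra hxi
    exact hx ⟨(G i)ᶜ, ⟨i, rfl⟩, hxi⟩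
  · rintro s ⟨i, rfl⟩
    have := (isClosed_isNowhereDense_iff_compl (s := (G i)ᶜ)).2
      (by rw [compl_compl]; exact ⟨ho i, hd i⟩)
    exact this.2

theorem card_aux {α β : Type} (hα : #α < 𝔠) [Countable β] : #(α × β) < 𝔠 := by
  rw [mk_prod, lift_id, lift_id]
  apply mul_lt_of_lt (aleph0_le_continuum) hα
  exact lt_of_le_of_lt (mk_le_aleph0) aleph0_lt_continuum

theorem card_countable (β : Type) [Countable β] : #β < 𝔠 :=
  lt_of_le_of_lt (mk_le_aleph0) aleph0_lt_continuum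

theorem card_sum {α β : Type} (hα : #α < 𝔠) (hβ : #β < 𝔠) : #(α ⊕ β) < 𝔠 := by
  rw [mk_sum, lift_id, lift_id]
  exact add_lt_of_lt aleph0_le_continuum hα hβ

/-! ### adding a point -/

/-- the point coded by `c`: it agrees with `z` below `h` and is `A ∩ c` from `h` on. -/
def pt (z : Finset ℕ) (h : ℕ) (A c : C) : C := fun i => if i < h then decide (i ∈ z) else A i && c i

theorem pt_congr {z : Finset ℕ} {h : ℕ} {A c d : C} {m : ℕ} (hcd : ∀ i < m, d i = c i) :
    ∀ i < m, pt z h A d i = pt z h A c i := by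
  intro i hi
  simp [pt, hcd i hi]

theorem pt_agree (z : Finset ℕ) (h : ℕ) (A c : C) : Agree z h (pt z h A c) := by
  intro i hi
  simp [pt, hi]

theorem pt_below (z : Finset ℕ) (h : ℕ) (A c : C) : Below h (pt z h A c) A := by
  intro i hi hx
  have : ¬ i < h := not_lt.2 hi
  simp [pt, this] at hx
  exact hx.1

theorem exists_point (hcov : CovM) {P : Set (K × C)} (hP : #P < 𝔠) {A : C} (hA : Good P A)
    (z : Finset ℕ) (h : ℕ) :
    ∃ x : C, Agree z h x ∧ Below h x A ∧ (∀ k, ∃ n, k ≤ n ∧ x n = true) ∧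
      ∀ p ∈ P, Spl p.2 (ev p.1 x) := by
  let G : (P × (Bool × ℕ)) ⊕ ℕ → Set C := fun t => match t with
    | Sum.inl (p, b, k) => {c | ∃ n, k ≤ n ∧ pt z h A c ∈ W p.1.1 n ∧ p.1.2 n = b}
    | Sum.inr k => {c | ∃ n, k ≤ n ∧ pt z h A c n = true}
  have hcard : #((P × (Bool × ℕ)) ⊕ ℕ) < 𝔠 := card_sum (card_aux hP) (card_countable _)
  suffices hex : ∃ c, ∀ i, c ∈ G i by
    obtain ⟨c, hc⟩ := hex
    refine ⟨pt z h A c, pt_agree _ _ _ _, pt_below _ _ _ _, fun k => hc (Sum.inr k), ?_⟩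
    intro p hp b k
    exact hc (Sum.inl (⟨p, hp⟩, b, k))
  refine generic hcov hcard G ?_ ?_
  · rintro (⟨p, b, k⟩ | k)
    · apply isOpen_of_cyl
      rintro c ⟨n, hkn, hW, hb⟩
      obtain ⟨m, hm⟩ := W_cyl hW
      exact ⟨m, fun d hd => ⟨n, hkn, hm _ (pt_congr hd), hb⟩⟩
    · apply isOpen_of_cyl
      rintro c ⟨n, hkn, hn⟩
      refine ⟨n + 1, fun d hd => ⟨n, hkn, ?_⟩⟩
      rw [pt_congr hd n (Nat.lt_succ_self n)]
      exact hn
  · rintro (⟨p, b, k⟩ | k)
    · apply dense_of_cyl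
      intro c m
      obtain ⟨n, hkn, ⟨x, hxW, hxz, hxA⟩, hb⟩ :=
        hA.2 p.1 p.2 ((Finset.range (max m h)).filter fun i => pt z h A c i = true) (max m h) b k
      refine ⟨fun i => if i < max m h then c i else x i, ⟨n, hkn, ?_, hb⟩, ?_⟩
      · have : pt z h A (fun i => if i < max m h then c i else x i) = x := by
          funext i
          by_cases hi : i < max m h
          · have h1 := pt_congr (z := z) (h := h) (A := A) (c := c)
              (d := fun i => if i < max m h then c i else x i) (m := max m h)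
              (by intro i hi; simp [hi]) i hi
            rw [h1]
            have h2 := hxz i hi
            simp only [Finset.mem_filter, Finset.mem_range, hi, true_and] at h2
            cases hx : x i <;> cases hp : pt z h A c i <;> simp_all
          · have hih : ¬ i < h := fun hh => hi (lt_of_lt_of_le hh (le_max_right _ _))
            simp only [pt, hih, if_false, hi]
            cases hx : x i with
            | false => simp
            | true =>
              have := hxA i (not_lt.1 hi) hx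
              simp [this]
        rw [this]
        exact hxW
      · intro i hi
        have : i < max m h := lt_of_lt_of_le hi (le_max_left _ _)
        simp [this]
    · apply dense_of_cyl
      intro c m
      obtain ⟨n, hn, hAn⟩ := hA.1 (max k (max m h))
      refine ⟨fun i => if i < max m h then c i else true, ⟨n, le_trans (le_max_left _ _) hn, ?_⟩, ?_⟩
      · have h1 : max m h ≤ n := le_trans (le_max_right _ _) hn
        have h2 : ¬ n < max m h := not_lt.2 h1
        have h3 : ¬ n < h := not_lt.2 (le_trans (le_max_right _ _) h1)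
        simp only [pt, h3, if_false, h2, hAn]
        simp
      · intro i hi
        have : i < max m h := lt_of_lt_of_le hi (le_max_left _ _)
        simp [this]

/-! ### adding a promise -/

/-- The compact pieces of the family of sets whose complement is not good for `Q`. -/
def Piece (Q : Set (K × C)) : ℕ ⊕ (Q × (Finset ℕ × ℕ × Bool × ℕ)) → Set C
  | Sum.inl m => {B | ∀ n, m ≤ n → B n = true}
  | Sum.inr (p, z, h, b, m) => {B | ∀ n, m ≤ n → n ∈ S p.1.1 z h (neg B) → p.1.2 n ≠ b}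

theorem isClosed_Piece (Q : Set (K × C)) (l) : IsClosed (Piece Q l) := by
  rcases l with m | ⟨p, z, h, b, m⟩
  · have : Piece Q (Sum.inl m) = ⋂ n, ⋂ (_ : m ≤ n), {B : C | B n = true} := by
      ext B; simp [Piece]
    rw [this]
    refine isClosed_iInter fun n => isClosed_iInter fun _ => ?_
    exact isClosed_eq (continuous_apply n) continuous_const
  · have : Piece Q (Sum.inr (p, z, h, b, m)) =
        ⋂ n, ⋂ (_ : m ≤ n), ⋂ (_ : p.1.2 n = b), {B : C | n ∈ S p.1.1 z h (neg B)}ᶜ := by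
      ext B
      simp only [Piece, Set.mem_ofPred_eq, Set.mem_iInter, Set.mem_compl_iff]
      constructor
      · intro hB n hn hb hS
        exact hB n hn hS hb
      · intro hB n hn hS hb
        exact hB n hn hb hS
    rw [this]
    refine isClosed_iInter fun n => isClosed_iInter fun _ => isClosed_iInter fun _ => ?_
    exact (isOpen_S_neg _ _ _ _).isClosed_compl

theorem not_good_iff (Q : Set (K × C)) (B : C) :
    ¬ Good Q (neg B) ↔ ∃ l, B ∈ Piece Q l := by
  constructor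
  · intro h
    by_contra hcon
    push Not at hcon
    apply h
    constructor
    · intro k
      have := hcon (Sum.inl k)
      simp only [Piece, Set.mem_ofPred_eq, not_forall] at this
      obtain ⟨n, hn, hB⟩ := this
      exact ⟨n, hn, by simpa [neg] using hB⟩
    · intro p hp z h b k
      have := hcon (Sum.inr (⟨p, hp⟩, z, h, b, k))
      simp only [Piece, Set.mem_ofPred_eq, not_forall, not_not] at this
      obtain ⟨n, hn, hS, hb⟩ := this
      exact ⟨n, hn, hS, hb⟩
  · rintro ⟨l, hl⟩ hg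
    rcases l with m | ⟨p, z, h, b, m⟩
    · obtain ⟨n, hn, hB⟩ := hg.1 m
      have := hl n hn
      simp [neg, this] at hB
    · obtain ⟨n, hn, hS, hb⟩ := hg.2 p.1 p.2 z h b m
      exact hl n hn hS hb

theorem bound (Q : Set (K × C)) (k : K)
    (hdual : ∀ B, ¬ Good Q (neg B) → ∀ z h, Unb (S k z h B)) (l) (z : Finset ℕ) (h k0 : ℕ) :
    ∃ H, ∀ B ∈ Piece Q l, ∃ n, k0 ≤ n ∧ n < H ∧ n ∈ S k z h B := by
  have hcomp : IsCompact (Piece Q l) := (isClosed_Piece Q l).isCompact
  suffices hex : ∃ H : ℕ, Piece Q l ⊆ {B : C | ∃ n, k0 ≤ n ∧ n < H ∧ n ∈ S k z h B} by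
    obtain ⟨H, hH⟩ := hex
    exact ⟨H, fun B hB => hH hB⟩
  refine hcomp.elim_directed_cover
    (fun H : ℕ => {B : C | ∃ n, k0 ≤ n ∧ n < H ∧ n ∈ S k z h B}) ?_ ?_ ?_
  · intro H
    have : {B : C | ∃ n, k0 ≤ n ∧ n < H ∧ n ∈ S k z h B} =
        ⋃ n, ⋃ (_ : k0 ≤ n), ⋃ (_ : n < H), {B : C | n ∈ S k z h B} := by
      ext B; simp only [Set.mem_iUnion, exists_prop, Set.mem_ofPred_eq]
    rw [this]
    exact isOpen_iUnion fun n => isOpen_iUnion fun _ => isOpen_iUnion fun _ => isOpen_S _ _ _ _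
  · intro B hB
    obtain ⟨n, hn, hS⟩ := hdual B ((not_good_iff Q B).2 ⟨l, hB⟩) z h k0
    exact Set.mem_iUnion.2 ⟨n + 1, n, hn, Nat.lt_succ_self n, hS⟩
  · intro a b
    refine ⟨max a b, ?_, ?_⟩
    · rintro B ⟨n, h1, h2, h3⟩
      exact ⟨n, h1, lt_of_lt_of_le h2 (le_max_left _ _), h3⟩
    · rintro B ⟨n, h1, h2, h3⟩
      exact ⟨n, h1, lt_of_lt_of_le h2 (le_max_right _ _), h3⟩

theorem exists_promise (hcov : CovM) {Q : Set (K × C)} (hQ : #Q < 𝔠) {Z : Set C} (hZ : #Z < 𝔠)
    (k : K) (hdual : ∀ B, ¬ Good Q (neg B) → ∀ z h, Unb (S k z h B))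
    (hlarge : ∀ x ∈ Z, Unb (ev k x)) :
    ∃ D : C, (∀ x ∈ Z, Spl D (ev k x)) ∧
      ∀ B, ¬ Good Q (neg B) → ∀ z h, Spl D (S k z h B) := by
  choose H hH using bound Q k hdual
  let I := (ℕ ⊕ (Q × (Finset ℕ × ℕ × Bool × ℕ))) × (Finset ℕ × ℕ × Bool × ℕ)
  let G : (I ⊕ (Z × (Bool × ℕ))) → Set C := fun t => match t with
    | Sum.inl (l, z, h, b, k0) => {D | ∃ k1, k0 ≤ k1 ∧ ∀ n, k1 ≤ n → n < H l z h k1 → D n = b}
    | Sum.inr (x, b, k0) => {D | ∃ n, k0 ≤ n ∧ n ∈ ev k x.1 ∧ D n = b}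
  have hcard : #(I ⊕ (Z × (Bool × ℕ))) < 𝔠 :=
    card_sum (card_aux (card_sum (card_countable _) (card_aux hQ))) (card_aux hZ)
  suffices hex : ∃ D, ∀ i, D ∈ G i by
    obtain ⟨D, hD⟩ := hex
    refine ⟨D, fun x hx b k0 => hD (Sum.inr (⟨x, hx⟩, b, k0)), ?_⟩
    intro B hB z h b k0
    obtain ⟨l, hl⟩ := (not_good_iff Q B).1 hB
    obtain ⟨k1, hk1, hk⟩ := hD (Sum.inl (l, z, h, b, k0))
    obtain ⟨n, h1, h2, h3⟩ := hH l z h k1 B hl
    exact ⟨n, le_trans hk1 h1, h3, hk n h1 h2⟩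
  refine generic hcov hcard G ?_ ?_
  · rintro (⟨l, z, h, b, k0⟩ | ⟨x, b, k0⟩)
    · apply isOpen_of_cyl
      rintro D ⟨k1, hk1, hk⟩
      refine ⟨H l z h k1, fun E hE => ⟨k1, hk1, fun n h1 h2 => ?_⟩⟩
      rw [hE n h2]
      exact hk n h1 h2
    · apply isOpen_of_cyl
      rintro D ⟨n, h1, h2, h3⟩
      refine ⟨n + 1, fun E hE => ⟨n, h1, h2, ?_⟩⟩
      rw [hE n (Nat.lt_succ_self n)]
      exact h3
  · rintro (⟨l, z, h, b, k0⟩ | ⟨x, b, k0⟩)
    · apply dense_of_cyl
      intro D m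
      refine ⟨fun i => if i < m then D i else b, ⟨max m k0, le_max_right _ _, ?_⟩, ?_⟩
      · intro n h1 _
        have : ¬ n < m := not_lt.2 (le_trans (le_max_left _ _) h1)
        simp [this]
      · intro i hi
        simp [hi]
    · apply dense_of_cyl
      intro D m
      obtain ⟨n, h1, h2⟩ := hlarge x.1 x.2 (max m k0)
      refine ⟨fun i => if i < m then D i else b,
        ⟨n, le_trans (le_max_right _ _) h1, h2, ?_⟩, ?_⟩
      · have : ¬ n < m := not_lt.2 (le_trans (le_max_left _ _) h1)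
        simp [this]
      · intro i hi
        simp [hi]

end Pool.Agent.Lib.MP_293d80_gt
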