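import Mathlib

/-!
A transfinite bookkeeping lemma of length `𝔠`.
-/

set_option autoImplicit false

namespace Pool.Agent.Lib.MP_293d80_gt

open Set Cardinal

theorem transfinite {E T : Type} (hT : #T ≤ 𝔠) (OK : Set E → Prop) (Ful : T → Set E → Prop)
    (hchain : ∀ c : Set (Set E), IsChain (· ⊆ ·) c → (∀ σ ∈ c, OK σ) → OK (⋃₀ c))
    (hmono : ∀ t (σ τ : Set E), σ ⊆ τ → Ful t σ → Ful t τ)
    (hstep : ∀ σ, OK σ → #σ < 𝔠 → ∀ t, ∃ e, OK (insert e σ) ∧ Ful t (insert e σ)) :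
    ∃ σ : Set E, OK σ ∧ ∀ t, Ful t σ := by
  classical
  rcases isEmpty_or_nonempty T with hemp | ⟨⟨t0⟩⟩
  · refine ⟨⋃₀ ∅, hchain ∅ (by simp [IsChain]) (by simp), fun t => (hemp.false t).elim⟩
  have hOK0 : OK (∅ : Set E) := by
    have := hchain ∅ (by simp [IsChain]) (by simp)
    simpa using this
  obtain ⟨e0, -⟩ := hstep ∅ hOK0 (by simp [continuum_pos]) t0
  obtain ⟨_, hwfl, hr⟩ := Cardinal.exists_ord_eq_type_lt T
  have hseg : ∀ t : T, #(Set.Iio t) < 𝔠 := fun t => lt_of_lt_of_le (Cardinal.mk_Iio_lt t hr) hT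
  let nxt : Set E → T → E := fun σ t =>
    if h : ∃ e, OK (insert e σ) ∧ Ful t (insert e σ) then Classical.choose h else e0
  have hwf : WellFounded (fun a b : T => a < b) := hwfl.wf
  let g : T → E := hwf.fix fun t ih => nxt {x | ∃ t', ∃ ht : t' < t, x = ih t' ht} t
  let σ : T → Set E := fun t => {x | ∃ t', ∃ _ : t' < t, x = g t'}
  have hg : ∀ t, g t = nxt (σ t) t := by
    intro t
    exact hwf.fix_eq (fun t ih => nxt {x | ∃ t', ∃ ht : t' < t, x = ih t' ht} t) t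
  have hins : ∀ t', (insert (g t') (σ t') : Set E) = {x | ∃ s, (s < t' ∨ s = t') ∧ x = g s} := by
    intro t'
    ext x
    simp only [σ, Set.mem_insert_iff, Set.mem_ofPred_eq, exists_prop]
    constructor
    · rintro (h | ⟨s, hs, h⟩)
      · exact ⟨t', Or.inr rfl, h⟩
      · exact ⟨s, Or.inl hs, h⟩
    · rintro ⟨s, hs | hs, h⟩
      · exact Or.inr ⟨s, hs, h⟩
      · exact Or.inl (hs ▸ h)
  have hmonoins : ∀ s t : T, s < t → (insert (g s) (σ s) : Set E) ⊆ insert (g t) (σ t) := by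
    intro s t hst
    rw [hins, hins]
    rintro x ⟨u, hu, hx⟩
    refine ⟨u, Or.inl ?_, hx⟩
    rcases hu with hu | hu
    · exact lt_trans hu hst
    · exact hu ▸ hst
  have hch : ∀ p : T → Prop,
      IsChain (· ⊆ ·) {τ : Set E | ∃ s, p s ∧ τ = insert (g s) (σ s)} := by
    rintro p τ1 ⟨s, -, rfl⟩ τ2 ⟨t, -, rfl⟩ -
    rcases lt_trichotomy s t with h | h | h
    · exact Or.inl (hmonoins s t h)
    · subst h; exact Or.inl subset_rfl
    · exact Or.inr (hmonoins t s h)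
  have hσ : ∀ t, σ t = ⋃₀ {τ : Set E | ∃ s, s < t ∧ τ = insert (g s) (σ s)} := by
    intro t
    ext x
    simp only [Set.mem_sUnion, Set.mem_ofPred_eq]
    constructor
    · rintro ⟨s, hs, hx⟩
      exact ⟨_, ⟨s, hs, rfl⟩, by rw [hx]; exact Set.mem_insert _ _⟩
    · rintro ⟨_, ⟨s, hs, rfl⟩, hx⟩
      rw [hins] at hx
      obtain ⟨u, hu, hx⟩ := hx
      refine ⟨u, ?_, hx⟩
      rcases hu with hu | hu
      · exact lt_trans hu hs
      · exact hu ▸ hs
  have hcard : ∀ t, #(σ t) < 𝔠 := by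
    intro t
    refine lt_of_le_of_lt ?_ (hseg t)
    have : σ t = g '' (Set.Iio t) := by
      ext x
      simp only [σ, Set.mem_image, Set.mem_ofPred_eq, exists_prop, Set.mem_Iio]
      exact ⟨fun ⟨s, hs, hx⟩ => ⟨s, hs, hx.symm⟩, fun ⟨s, hs, hx⟩ => ⟨s, hs, hx.symm⟩⟩
    rw [this]
    exact mk_image_le
  have hspec : ∀ t, OK (σ t) → OK (insert (g t) (σ t)) ∧ Ful t (insert (g t) (σ t)) := by
    intro t ht
    have hex := hstep (σ t) ht (hcard t) t
    have : g t = Classical.choose hex := by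
      rw [hg t]
      simp only [nxt]
      rw [dif_pos hex]
    rw [this]
    exact Classical.choose_spec hex
  have hOK : ∀ t, OK (σ t) := by
    intro t
    induction t using hwf.induction with
    | _ t ih =>
      rw [hσ t]
      apply hchain _ (hch _)
      rintro τ ⟨s, hs, rfl⟩
      exact (hspec s (ih s hs)).1
  refine ⟨⋃₀ {τ : Set E | ∃ s, True ∧ τ = insert (g s) (σ s)}, ?_, ?_⟩
  · apply hchain _ (hch _)
    rintro τ ⟨s, -, rfl⟩
    exact (hspec s (hOK s)).1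
  · intro t
    refine hmono t _ _ ?_ (hspec t (hOK t)).2
    exact Set.subset_sUnion_of_mem ⟨t, trivial, rfl⟩

end Pool.Agent.Lib.MP_293d80_gt
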