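import Mathlib
import Pool.Agent.Lib.MP_293d80_gt.Core
import Pool.Agent.Lib.MP_293d80_gt.Trans

/-!
The transfinite construction.
-/

set_option autoImplicit false

namespace Pool.Agent.Lib.MP_293d80_gt

open Set Cardinal

/-- Events: for side `b`, either a promise is added or a point is added. -/
abbrev Ev := Bool × ((K × C) ⊕ C)

/-- Tasks. -/
abbrev Task := (Finset ℕ × ℕ × C) ⊕ (Bool × K)

def Pr (σ : Set Ev) (b : Bool) : Set (K × C) := {p | (b, Sum.inl p) ∈ σ}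

def Pt (σ : Set Ev) (b : Bool) : Set C := {x | (b, Sum.inr x) ∈ σ}

structure OK (σ : Set Ev) : Prop where
  dual : ∀ b A, Good (Pr σ b) A ∨ Good (Pr σ (!b)) (neg A)
  inf : ∀ b, ∀ x ∈ Pt σ b, ∀ k, ∃ n, k ≤ n ∧ x n = true
  spl : ∀ b, ∀ x ∈ Pt σ b, ∀ p ∈ Pr σ b, Spl p.2 (ev p.1 x)

def Ful : Task → Set Ev → Prop
  | Sum.inl (z, h, A), σ => ∃ b, ∃ x ∈ Pt σ b, Agree z h x ∧ (Below h x A ∨ Below h x (neg A))
  | Sum.inr (b, k), σ => (∃ x ∈ Pt σ b, ¬ Unb (ev k x)) ∨ ∃ D, (k, D) ∈ Pr σ b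

theorem Pr_mono {σ τ : Set Ev} (h : σ ⊆ τ) (b : Bool) : Pr σ b ⊆ Pr τ b := fun _ hp => h hp

theorem Pt_mono {σ τ : Set Ev} (h : σ ⊆ τ) (b : Bool) : Pt σ b ⊆ Pt τ b := fun _ hp => h hp

theorem good_anti {P Q : Set (K × C)} (h : P ⊆ Q) {A : C} (hA : Good Q A) : Good P A :=
  ⟨hA.1, fun p hp => hA.2 p (h hp)⟩

theorem Ful_mono (t : Task) (σ τ : Set Ev) (h : σ ⊆ τ) (hf : Ful t σ) : Ful t τ := by
  rcases t with ⟨z, m, A⟩ | ⟨b, k⟩
  · obtain ⟨b, x, hx, h1⟩ := hf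
    exact ⟨b, x, h hx, h1⟩
  · rcases hf with ⟨x, hx, h1⟩ | ⟨D, hD⟩
    · exact Or.inl ⟨x, h hx, h1⟩
    · exact Or.inr ⟨D, h hD⟩

theorem inf_or (A : C) : (∀ k, ∃ n, k ≤ n ∧ A n = true) ∨ (∀ k, ∃ n, k ≤ n ∧ neg A n = true) := by
  by_contra hcon
  push Not at hcon
  obtain ⟨⟨k, hk⟩, ⟨l, hl⟩⟩ := hcon
  have h1 := hk (max k l) (le_max_left _ _)
  have h2 := hl (max k l) (le_max_right _ _)
  cases h : A (max k l) <;> simp_all [neg]

theorem OK_chain (c : Set (Set Ev)) (hc : IsChain (· ⊆ ·) c) (h : ∀ σ ∈ c, OK σ) :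
    OK (⋃₀ c) := by
  have htot : ∀ σ ∈ c, ∀ τ ∈ c, σ ⊆ τ ∨ τ ⊆ σ := fun σ hσ τ hτ => hc.total hσ hτ
  refine ⟨?_, ?_, ?_⟩
  · intro b A
    rcases c.eq_empty_or_nonempty with he | ⟨σ0, hσ0⟩
    · subst he
      rcases inf_or A with hA | hA
      · exact Or.inl ⟨hA, by simp [Pr]⟩
      · exact Or.inr ⟨hA, by simp [Pr]⟩
    · by_cases hall : ∀ σ ∈ c, Good (Pr σ b) A
      · left
        refine ⟨(hall σ0 hσ0).1, ?_⟩
        rintro p ⟨σ, hσ, hp⟩
        exact (hall σ hσ).2 p hp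
      · right
        push Not at hall
        obtain ⟨σ1, hσ1, hbad⟩ := hall
        have hg1 : Good (Pr σ1 (!b)) (neg A) := ((h σ1 hσ1).dual b A).resolve_left hbad
        refine ⟨hg1.1, ?_⟩
        rintro p ⟨σ, hσ, hp⟩
        rcases htot σ hσ σ1 hσ1 with hle | hle
        · exact hg1.2 p (hle hp)
        · have hbad' : ¬ Good (Pr σ b) A := fun hg => hbad (good_anti (Pr_mono hle b) hg)
          exact (((h σ hσ).dual b A).resolve_left hbad').2 p hp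
  · rintro b x ⟨σ, hσ, hx⟩
    exact (h σ hσ).inf b x hx
  · rintro b x ⟨σ, hσ, hx⟩ p ⟨τ, hτ, hp⟩
    rcases htot σ hσ τ hτ with hle | hle
    · exact (h τ hτ).spl b x (hle hx) p hp
    · exact (h σ hσ).spl b x hx p (hle hp)

theorem card_Pr {σ : Set Ev} (h : #σ < 𝔠) (b : Bool) : #(Pr σ b) < 𝔠 := by
  refine lt_of_le_of_lt ?_ h
  refine mk_le_of_injective (f := fun p : Pr σ b => (⟨(b, Sum.inl p.1), p.2⟩ : σ)) ?_
  rintro ⟨p, hp⟩ ⟨q, hq⟩ hpq
  simp only [Subtype.mk.injEq, Prod.mk.injEq, Sum.inl.injEq, true_and] at hpq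
  exact Subtype.ext hpq

theorem card_Pt {σ : Set Ev} (h : #σ < 𝔠) (b : Bool) : #(Pt σ b) < 𝔠 := by
  refine lt_of_le_of_lt ?_ h
  refine mk_le_of_injective (f := fun p : Pt σ b => (⟨(b, Sum.inr p.1), p.2⟩ : σ)) ?_
  rintro ⟨p, hp⟩ ⟨q, hq⟩ hpq
  simp only [Subtype.mk.injEq, Prod.mk.injEq, Sum.inr.injEq, true_and] at hpq
  exact Subtype.ext hpq

theorem Pr_insert_pt (σ : Set Ev) (b b' : Bool) (x : C) :
    Pr (insert (b, Sum.inr x) σ) b' = Pr σ b' := by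
  ext p; simp [Pr]

theorem mem_Pt_insert_pt (σ : Set Ev) (b b' : Bool) (x y : C) :
    y ∈ Pt (insert (b, Sum.inr x) σ) b' ↔ (b' = b ∧ y = x) ∨ y ∈ Pt σ b' := by
  simp [Pt]

theorem Pt_insert_pr (σ : Set Ev) (b b' : Bool) (p : K × C) :
    Pt (insert (b, Sum.inl p) σ) b' = Pt σ b' := by
  ext x; simp [Pt]

theorem mem_Pr_insert_pr (σ : Set Ev) (b b' : Bool) (p q : K × C) :
    q ∈ Pr (insert (b, Sum.inl p) σ) b' ↔ (b' = b ∧ q = p) ∨ q ∈ Pr σ b' := by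
  simp [Pr]

/-- adding a point which keeps all promises -/
theorem OK_pt {σ : Set Ev} (hσ : OK σ) (b : Bool) (x : C) (hx : ∀ k, ∃ n, k ≤ n ∧ x n = true)
    (hp : ∀ p ∈ Pr σ b, Spl p.2 (ev p.1 x)) : OK (insert (b, Sum.inr x) σ) := by
  refine ⟨?_, ?_, ?_⟩
  · intro b' A
    rw [Pr_insert_pt, Pr_insert_pt]
    exact hσ.dual b' A
  · intro b' y hy
    rw [mem_Pt_insert_pt] at hy
    rcases hy with ⟨rfl, rfl⟩ | hy
    · exact hx
    · exact hσ.inf b' y hy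
  · intro b' y hy p hp'
    rw [mem_Pt_insert_pt] at hy
    rw [Pr_insert_pt] at hp'
    rcases hy with ⟨rfl, rfl⟩ | hy
    · exact hp p hp'
    · exact hσ.spl b' y hy p hp'

/-- adding a promise -/
theorem OK_pr {σ : Set Ev} (hσ : OK σ) (b : Bool) (k : K) (D : C)
    (hx : ∀ x ∈ Pt σ b, Spl D (ev k x))
    (hp : ∀ B, ¬ Good (Pr σ (!b)) (neg B) → ∀ z h, Spl D (S k z h B)) :
    OK (insert (b, Sum.inl (k, D)) σ) := by
  have key : ∀ A, Good (Pr (insert (b, Sum.inl (k, D)) σ) b) A ∨ Good (Pr σ (!b)) (neg A) := by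
    intro A
    by_cases hg : Good (Pr σ (!b)) (neg A)
    · exact Or.inr hg
    · left
      have hA := (hσ.dual b A).resolve_right hg
      refine ⟨hA.1, fun p hp' z h => ?_⟩
      rw [mem_Pr_insert_pr] at hp'
      rcases hp' with ⟨-, rfl⟩ | hp'
      · exact hp A hg z h
      · exact hA.2 p hp' z h
  have hother : Pr (insert (b, Sum.inl (k, D)) σ) (!b) = Pr σ (!b) := by
    ext q
    rw [mem_Pr_insert_pr]
    cases b <;> simp
  refine ⟨?_, ?_, ?_⟩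
  · intro b' A
    by_cases hb : b' = b
    · subst hb
      rw [hother]
      exact key A
    · have hb' : b' = !b := by cases b <;> cases b' <;> simp_all
      subst hb'
      rw [hother, Bool.not_not]
      rcases key (neg A) with h1 | h1
      · exact Or.inr h1
      · rw [neg_neg'] at h1
        exact Or.inl h1
  · intro b' y hy
    rw [Pt_insert_pr] at hy
    exact hσ.inf b' y hy
  · intro b' y hy p hp'
    rw [Pt_insert_pr] at hy
    rw [mem_Pr_insert_pr] at hp'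
    rcases hp' with ⟨rfl, rfl⟩ | hp'
    · exact hx y hy
    · exact hσ.spl b' y hy p hp'

theorem step (hcov : CovM) (σ : Set Ev) (hσ : OK σ) (hcard : #σ < 𝔠) (t : Task) :
    ∃ e, OK (insert e σ) ∧ Ful t (insert e σ) := by
  rcases t with ⟨z, h, A⟩ | ⟨b, k⟩
  · rcases hσ.dual true A with hA | hA
    · obtain ⟨x, h1, h2, h3, h4⟩ := exists_point hcov (card_Pr hcard true) hA z h
      refine ⟨(true, Sum.inr x), OK_pt hσ true x h3 h4, true, x, ?_, h1, Or.inl h2⟩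
      rw [mem_Pt_insert_pt]
      exact Or.inl ⟨rfl, rfl⟩
    · obtain ⟨x, h1, h2, h3, h4⟩ := exists_point hcov (card_Pr hcard (!true)) hA z h
      refine ⟨(!true, Sum.inr x), OK_pt hσ (!true) x h3 h4, !true, x, ?_, h1, Or.inr h2⟩
      rw [mem_Pt_insert_pt]
      exact Or.inl ⟨rfl, rfl⟩
  · by_cases h1 : ∃ x ∈ Pt σ b, ¬ Unb (ev k x)
    · obtain ⟨x, hx, hu⟩ := h1
      refine ⟨(b, Sum.inr x), ?_, Or.inl ⟨x, ?_, hu⟩⟩
      · have : insert (b, Sum.inr x) σ = σ := Set.insert_eq_of_mem hx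
        rw [this]
        exact hσ
      · exact Set.mem_insert _ _
    · push Not at h1
      by_cases h2 : ∀ A, Good (Pr σ b) A → ∀ z h, Unb (S k z h A)
      · obtain ⟨D, hD1, hD2⟩ := exists_promise hcov (card_Pr hcard (!b)) (card_Pt hcard b) k
          (fun B hB => h2 B ((hσ.dual b B).resolve_right hB)) h1
        refine ⟨(b, Sum.inl (k, D)), OK_pr hσ b k D hD1 hD2, Or.inr ⟨D, ?_⟩⟩
        rw [mem_Pr_insert_pr]
        exact Or.inl ⟨rfl, rfl⟩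
      · push Not at h2
        obtain ⟨A, hA, z, h, hu⟩ := h2
        obtain ⟨x, h3, h4, h5, h6⟩ := exists_point hcov (card_Pr hcard b) hA z h
        refine ⟨(b, Sum.inr x), OK_pt hσ b x h5 h6, Or.inl ⟨x, Set.mem_insert _ _, ?_⟩⟩
        intro hev
        apply hu
        intro m
        obtain ⟨n, hn, hx⟩ := hev m
        exact ⟨n, hn, x, hx, h3, h4⟩

theorem card_Task : #Task ≤ 𝔠 := by
  have h1 : #C = 𝔠 := by simp [C]
  have h2 : #K = 𝔠 := by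
    rw [K, mk_set, mk_eq_aleph0, two_power_aleph0]
  have h3 : #(Finset ℕ × ℕ × C) ≤ 𝔠 := by
    rw [mk_prod, mk_prod, h1]
    simp
  have h4 : #(Bool × K) ≤ 𝔠 := by
    rw [mk_prod, h2]
    simp
  rw [Task, mk_sum]
  simp only [lift_id]
  exact add_le_of_le aleph0_le_continuum h3 h4

/-- The two families produced by the construction. -/
theorem families (hcov : CovM) : ∃ Z : Bool → Set C,
    (∀ b, ∀ x ∈ Z b, ∀ k, ∃ n, k ≤ n ∧ x n = true) ∧
    (∀ b k, (∀ x ∈ Z b, Unb (ev k x)) → ∃ D : C, ∀ x ∈ Z b, Spl D (ev k x)) ∧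
    (∀ z h A, ∃ b, ∃ x ∈ Z b, Agree z h x ∧ (Below h x A ∨ Below h x (neg A))) := by
  obtain ⟨σ, hσ, hf⟩ := transfinite card_Task OK Ful OK_chain Ful_mono (step hcov)
  refine ⟨Pt σ, hσ.inf, ?_, ?_⟩
  · intro b k hlarge
    rcases hf (Sum.inr (b, k)) with ⟨x, hx, hu⟩ | ⟨D, hD⟩
    · exact absurd (hlarge x hx) hu
    · exact ⟨D, fun x hx => hσ.spl b x hx (k, D) hD⟩
  · intro z h A
    exact hf (Sum.inl (z, h, A))

end Pool.Agent.Lib.MP_293d80_gt
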